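import Pool.Agent.X31.C1
import Pool.Agent.H295R3.Hoheisel

/-! Many `t ∈ (Y, 2 Y]` with a prime just below `n - t` (helper10). Input: Hoheisel's theorem (starting library) and the sieve
bound for pairs of primes (`Pool.Agent.X31.pair_bound`, helper31, from `Pool.Agent.Y949.DK.t_SV`). -/

set_option autoImplicit false

namespace Pool.Agent.X10.ST

open Finset Filter
open Pool.Agent.X31 (pair_bound sg_avg sg_nonneg)
open Pool.Agent.Y851.DK (sg)

/-- close pairs of primes in an interval -/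
lemma pairs_le : ∃ C : ℝ, 1 ≤ C ∧ ∀ᶠ Y : ℕ in atTop, ∀ (X H : ℕ) (S : Finset ℕ), S ⊆ Ioc X (X + Y) →
    (∀ q ∈ S, q.Prime) →
    (((S ×ˢ S).filter (fun v => v.1 < v.2 ∧ v.2 < v.1 + H)).card : ℝ) ≤ C * H * (Y / Real.log Y ^ 2) := by
  classical
  obtain ⟨C, hC, h1⟩ := pair_bound
  obtain ⟨C', hC', h2⟩ := sg_avg C (by linarith)
  refine ⟨C * C', by nlinarith, ?_⟩
  filter_upwards [h1] with Y hY X H S hS hp
  have hmaps : ∀ v ∈ (S ×ˢ S).filter (fun v => v.1 < v.2 ∧ v.2 < v.1 + H), v.2 - v.1 ∈ Icc 1 H := by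
    intro v hv
    rw [mem_filter] at hv
    rw [mem_Icc]
    omega
  have hYY : (0 : ℝ) ≤ Y / Real.log Y ^ 2 := by positivity
  rw [card_eq_sum_card_fiberwise hmaps]
  push_cast
  calc ∑ h ∈ Icc 1 H, ((((S ×ˢ S).filter (fun v => v.1 < v.2 ∧ v.2 < v.1 + H)).filter
        (fun v => v.2 - v.1 = h)).card : ℝ) ≤
      ∑ h ∈ Icc 1 H, C * (Y / Real.log Y ^ 2) * Real.exp (C * sg h) := by
        apply sum_le_sum
        intro h hh
        rw [mem_Icc] at hh
        have h3 := hY (X : ℤ) ((X : ℤ) + h) (by omega)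
        have h4 : ((X : ℤ) - (X + h)).natAbs = h := by omega
        rw [h4] at h3
        refine le_trans ?_ (h3.trans (le_of_eq (by ring)))
        norm_cast
        refine card_le_card_of_injOn (fun v => v.1 - X) ?_ ?_
        · intro v hv
          rw [mem_coe, mem_filter, mem_filter, mem_product] at hv
          obtain ⟨⟨⟨g1, g2⟩, g3⟩, g4⟩ := hv
          have k1 := mem_Ioc.1 (hS g1)
          rw [mem_coe, mem_filter, mem_Icc]
          beta_reduce
          refine ⟨⟨by omega, by omega⟩, ?_, ?_⟩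
          · have : v.1 - X + X = v.1 := by omega
            rw [this]; exact hp _ g1
          · have : v.1 - X + (X + h) = v.2 := by omega
            rw [this]; exact hp _ g2
        · intro v hv w hw hvw
          rw [mem_coe, mem_filter, mem_filter, mem_product] at hv hw
          have k1 := mem_Ioc.1 (hS hv.1.1.1)
          have k2 := mem_Ioc.1 (hS hw.1.1.1)
          simp only at hvw
          have e1 : v.1 = w.1 := by omega
          have e2 : v.2 = w.2 := by
            have := hv.1.2; have := hw.1.2; have := hv.2; have := hw.2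
            omega
          exact Prod.ext e1 e2
    _ = C * (Y / Real.log Y ^ 2) * ∑ h ∈ Icc 1 H, Real.exp (C * sg h) := by rw [mul_sum]
    _ ≤ C * (Y / Real.log Y ^ 2) * (C' * H) := by
        apply mul_le_mul_of_nonneg_left (h2 H)
        exact mul_nonneg (by linarith) hYY
    _ = C * C' * H * (Y / Real.log Y ^ 2) := by ring

/-- the `t ∈ (Y, 2 Y]` with an element of `S` in `(n - t - H, n - t]` -/
def GT (S : Finset ℕ) (n Y H : ℕ) : Finset ℕ := (Ioc Y (2 * Y)).filter (fun t => ∃ q ∈ S, q + t ≤ n ∧ n < q + t + H)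

/-- the inequality of Cauchy and Schwarz -/
lemma second (S : Finset ℕ) (n Y H : ℕ) (hn : 2 * Y ≤ n) (hS : ∀ q ∈ S, n - 2 * Y ≤ q ∧ q + Y + H ≤ n) :
    (H : ℝ) * (S.card : ℝ) ^ 2 ≤ ((GT S n Y H).card : ℝ) *
      (S.card + 2 * ((S ×ˢ S).filter (fun v => v.1 < v.2 ∧ v.2 < v.1 + H)).card) := by
  classical
  rcases Nat.eq_zero_or_pos H with hH | hH
  · subst hH
    push_cast
    rw [zero_mul]
    positivity
  obtain ⟨r, hr⟩ : ∃ r : ℕ → ℕ, r = fun t => (S.filter (fun q => q + t ≤ n ∧ n < q + t + H)).card := ⟨_, rfl⟩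
  -- first moment
  have hfirst : ∑ t ∈ GT S n Y H, (r t : ℝ) = H * S.card := by
    have h1 : ∑ t ∈ GT S n Y H, r t = ∑ t ∈ Ioc Y (2 * Y), r t := by
      unfold GT
      rw [sum_filter]
      apply sum_congr rfl
      intro t _
      split_ifs with h
      · rfl
      · rw [hr]
        simp only
        symm
        rw [card_eq_zero, filter_eq_empty_iff]
        intro q hq hh
        exact h ⟨q, hq, hh⟩
    have h2 : ∑ t ∈ Ioc Y (2 * Y), r t = ∑ q ∈ S, ((Ioc Y (2 * Y)).filter (fun t => q + t ≤ n ∧ n < q + t + H)).card := by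
      rw [hr]
      simp only [card_filter]
      exact sum_comm
    have h3 : ∀ q ∈ S, ((Ioc Y (2 * Y)).filter (fun t => q + t ≤ n ∧ n < q + t + H)).card = H := by
      intro q hq
      obtain ⟨g1, g2⟩ := hS q hq
      have : (Ioc Y (2 * Y)).filter (fun t => q + t ≤ n ∧ n < q + t + H) = Ioc (n - q - H) (n - q) := by
        ext t
        rw [mem_filter, mem_Ioc, mem_Ioc]
        omega
      rw [this, Nat.card_Ioc]
      omega
    have h4 : ∑ t ∈ GT S n Y H, r t = H * S.card := by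
      rw [h1, h2, sum_congr rfl h3, sum_const, smul_eq_mul, mul_comm]
    exact_mod_cast h4
  -- second moment
  have hsec : ∑ t ∈ GT S n Y H, (r t : ℝ) ^ 2 ≤
      H * (S.card + 2 * ((S ×ˢ S).filter (fun v => v.1 < v.2 ∧ v.2 < v.1 + H)).card) := by
    have h1 : ∑ t ∈ GT S n Y H, (r t) ^ 2 ≤ ∑ t ∈ Ioc Y (2 * Y), (r t) ^ 2 :=
      sum_le_sum_of_subset (filter_subset _ _)
    have h2 : ∀ t, (r t) ^ 2 = ((S ×ˢ S).filter (fun v => (v.1 + t ≤ n ∧ n < v.1 + t + H) ∧
        (v.2 + t ≤ n ∧ n < v.2 + t + H))).card := by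
      intro t
      rw [hr]
      simp only
      rw [sq, ← card_product]
      congr 1
      ext v
      simp only [mem_product, mem_filter]
      tauto
    have h3 : ∑ t ∈ Ioc Y (2 * Y), (r t) ^ 2 = ∑ v ∈ S ×ˢ S, ((Ioc Y (2 * Y)).filter (fun t =>
        (v.1 + t ≤ n ∧ n < v.1 + t + H) ∧ (v.2 + t ≤ n ∧ n < v.2 + t + H))).card := by
      simp only [h2, card_filter]
      exact sum_comm
    have h4 : ∀ v ∈ S ×ˢ S, ((Ioc Y (2 * Y)).filter (fun t =>
        (v.1 + t ≤ n ∧ n < v.1 + t + H) ∧ (v.2 + t ≤ n ∧ n < v.2 + t + H))).card ≤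
        (if v.1 < v.2 + H ∧ v.2 < v.1 + H then H else 0) := by
      intro v hv
      split_ifs with h
      · calc _ ≤ (Ioc (n - v.1 - H) (n - v.1)).card := by
              apply card_le_card
              intro t ht
              rw [mem_filter, mem_Ioc] at ht
              rw [mem_Ioc]
              omega
          _ ≤ H := by rw [Nat.card_Ioc]; omega
      · rw [Nat.le_zero, card_eq_zero, filter_eq_empty_iff]
        intro t _ ht
        apply h
        omega
    have h5 : ∑ v ∈ S ×ˢ S, (if v.1 < v.2 + H ∧ v.2 < v.1 + H then H else 0) =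
        ((S ×ˢ S).filter (fun v => v.1 < v.2 + H ∧ v.2 < v.1 + H)).card * H := by
      rw [← sum_filter, sum_const, smul_eq_mul]
    have h6 : ((S ×ˢ S).filter (fun v => v.1 < v.2 + H ∧ v.2 < v.1 + H)).card ≤
        S.card + 2 * ((S ×ˢ S).filter (fun v => v.1 < v.2 ∧ v.2 < v.1 + H)).card := by
      have h7 : (S ×ˢ S).filter (fun v => v.1 < v.2 + H ∧ v.2 < v.1 + H) ⊆
          S.image (fun q => (q, q)) ∪ (((S ×ˢ S).filter (fun v => v.1 < v.2 ∧ v.2 < v.1 + H)) ∪
            (((S ×ˢ S).filter (fun v => v.1 < v.2 ∧ v.2 < v.1 + H)).image Prod.swap)) := by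
        intro v hv
        rw [mem_filter, mem_product] at hv
        rw [mem_union, mem_union, mem_image, mem_image, mem_filter, mem_product]
        obtain ⟨⟨g1, g2⟩, g3, g4⟩ := hv
        rcases lt_trichotomy v.1 v.2 with h | h | h
        · right; left; exact ⟨⟨g1, g2⟩, h, g4⟩
        · left; exact ⟨v.1, g1, Prod.ext rfl h⟩
        · right; right
          refine ⟨(v.2, v.1), ?_, rfl⟩
          rw [mem_filter, mem_product]
          exact ⟨⟨g2, g1⟩, h, g3⟩
      refine (card_le_card h7).trans ((card_union_le _ _).trans ?_)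
      have h8 := card_union_le ((S ×ˢ S).filter (fun v => v.1 < v.2 ∧ v.2 < v.1 + H))
        (((S ×ˢ S).filter (fun v => v.1 < v.2 ∧ v.2 < v.1 + H)).image Prod.swap)
      have h9 : (((S ×ˢ S).filter (fun v => v.1 < v.2 ∧ v.2 < v.1 + H)).image Prod.swap).card ≤
        ((S ×ˢ S).filter (fun v => v.1 < v.2 ∧ v.2 < v.1 + H)).card := card_image_le
      have h10 : (S.image (fun q => (q, q))).card ≤ S.card := card_image_le
      omega
    have h11 : ∑ t ∈ GT S n Y H, (r t) ^ 2 ≤
        H * (S.card + 2 * ((S ×ˢ S).filter (fun v => v.1 < v.2 ∧ v.2 < v.1 + H)).card) := by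
      refine h1.trans ?_
      rw [h3]
      refine (sum_le_sum h4).trans ?_
      rw [h5, mul_comm]
      exact Nat.mul_le_mul_left _ h6
    exact_mod_cast h11
  have hcs := sum_mul_sq_le_sq_mul_sq (GT S n Y H) (fun _ => (1 : ℝ)) (fun t => (r t : ℝ))
  simp only [one_mul, one_pow, sum_const, nsmul_eq_mul, mul_one] at hcs
  rw [hfirst] at hcs
  have hHr : (0 : ℝ) < H := by exact_mod_cast hH
  obtain ⟨Q, hQ⟩ : ∃ Q : ℝ, Q = (S.card + 2 * ((S ×ˢ S).filter (fun v => v.1 < v.2 ∧ v.2 < v.1 + H)).card : ℝ) := ⟨_, rfl⟩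
  rw [← hQ] at hsec ⊢
  have h1 : (H * (S.card : ℝ)) ^ 2 ≤ (GT S n Y H).card * (H * Q) :=
    hcs.trans (mul_le_mul_of_nonneg_left hsec (Nat.cast_nonneg _))
  have h2 : H * (H * (S.card : ℝ) ^ 2) ≤ H * ((GT S n Y H).card * Q) := by nlinarith
  exact le_of_mul_le_mul_left h2 hHr

end Pool.Agent.X10.ST
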