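import Pool.Agent.X10.ST.Block

set_option autoImplicit false

namespace Pool.Agent.X10.ST

open Finset Filter

lemma real_aux {G S P s Y L H κ η C : ℝ} (hL : 0 < L) (hY : 0 < Y) (hκ : 0 < κ) (hη : 0 < η) (hC : 0 < C)
    (hG : 0 ≤ G) (hs : s = η * (Y / 2) / L) (hS : s ≤ S) (hP0 : 0 ≤ P) (hP : P ≤ 4 * C * κ * Y / L)
    (hH : κ / 2 * L ≤ H) (h : H * S ^ 2 ≤ G * (S + 2 * P)) :
    κ * η ^ 2 / (8 * (η / 2 + 8 * C * κ)) * Y ≤ G := by
  have hs0 : 0 < s := by rw [hs]; positivity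
  have hS0 : 0 < S := hs0.trans_le hS
  have hH0 : 0 < H := lt_of_lt_of_le (by positivity) hH
  obtain ⟨D, hD⟩ : ∃ D, D = η / 2 + 8 * C * κ := ⟨_, rfl⟩
  have hD0 : 0 < D := by rw [hD]; positivity
  rw [← hD]
  have h1 : s ^ 2 * (S + 2 * P) ≤ S ^ 2 * (s + 2 * P) := by
    nlinarith [mul_nonneg (mul_pos hS0 hs0).le (sub_nonneg.2 hS), mul_nonneg hP0 (sub_nonneg.2 hS),
      mul_nonneg (mul_nonneg hP0 (sub_nonneg.2 hS)) (add_pos hS0 hs0).le]
  have h2 : H * s ^ 2 * (S + 2 * P) ≤ G * (s + 2 * P) * (S + 2 * P) := by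
    calc H * s ^ 2 * (S + 2 * P) = H * (s ^ 2 * (S + 2 * P)) := by ring
      _ ≤ H * (S ^ 2 * (s + 2 * P)) := mul_le_mul_of_nonneg_left h1 hH0.le
      _ = (H * S ^ 2) * (s + 2 * P) := by ring
      _ ≤ (G * (S + 2 * P)) * (s + 2 * P) := mul_le_mul_of_nonneg_right h (by positivity)
      _ = _ := by ring
  have h3 : H * s ^ 2 ≤ G * (s + 2 * P) := le_of_mul_le_mul_right h2 (by positivity)
  have h4 : s + 2 * P ≤ D * Y / L := by
    rw [hs, hD]
    have : (η / 2 + 8 * C * κ) * Y / L = η * (Y / 2) / L + 2 * (4 * C * κ * Y / L) := by ring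
    rw [this]
    linarith
  have h5 : κ / 2 * L * s ^ 2 ≤ G * (D * Y / L) :=
    ((mul_le_mul_of_nonneg_right hH (by positivity)).trans h3).trans (mul_le_mul_of_nonneg_left h4 hG)
  have h6 : κ / 2 * L * s ^ 2 = κ * η ^ 2 * Y / 8 * (Y / L) := by
    rw [hs]; field_simp; norm_num
  have h7 : G * (D * Y / L) = G * D * (Y / L) := by ring
  rw [h6, h7] at h5
  have h8 := le_of_mul_le_mul_right h5 (by positivity)
  rw [div_mul_eq_mul_div, div_le_iff₀ (by positivity)]
  nlinarith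

/-- the good `t` of a block -/
noncomputable def GB (κ : ℝ) (n Y : ℕ) : Finset ℕ := by
  classical
  exact (Ioc Y (2 * Y)).filter (fun t => ∃ p : ℕ, p.Prime ∧ p + t ≤ n ∧ (n : ℝ) < p + t + κ * Real.log n)

/-- **a positive proportion of every dyadic block is good** -/
theorem good_block (κ : ℝ) (hκ : 0 < κ) : ∃ θ c : ℝ, 0 < θ ∧ θ < 1 ∧ 0 < c ∧ ∃ n₀ : ℕ, ∀ n : ℕ, n₀ ≤ n →
    ∀ Y : ℕ, (n : ℝ) ^ θ ≤ Y → 4 * Y ≤ n → c * Y ≤ ((GB κ n Y).card : ℝ) := by
  classical
  obtain ⟨δ, η, hδ, hδ1, hη, X₀, hX₀, hho⟩ := Pool.Agent.H295R3.D.hoheisel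
  obtain ⟨C, hC, hpairs⟩ := pairs_le
  obtain ⟨Y₀, hY₀⟩ := eventually_atTop.1 hpairs
  refine ⟨1 - δ / 2, κ * η ^ 2 / (8 * (η / 2 + 8 * C * κ)), by linarith, by linarith, by positivity, ?_⟩
  have tlog : Tendsto (fun n : ℕ => Real.log (n : ℝ)) atTop atTop := Real.tendsto_log_atTop.comp tendsto_natCast_atTop_atTop
  have tpow : ∀ a : ℝ, 0 < a → Tendsto (fun n : ℕ => (n : ℝ) ^ a) atTop atTop := fun a ha =>
    (tendsto_rpow_atTop ha).comp tendsto_natCast_atTop_atTop
  have ho : ∀ᶠ n : ℕ in atTop, 2 * κ * Real.log n ≤ (n : ℝ) ^ (1 - δ / 2) := by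
    have h1 : (fun x : ℝ => Real.log x) =o[atTop] (fun x : ℝ => x ^ (1 - δ / 2)) :=
      isLittleO_log_rpow_atTop (by linarith)
    have h2 := h1.bound (show (0 : ℝ) < 1 / (2 * κ) by positivity)
    filter_upwards [tendsto_natCast_atTop_atTop.eventually h2, eventually_ge_atTop 1] with n hn hn1
    have hn1' : (1 : ℝ) ≤ n := by exact_mod_cast hn1
    rw [Real.norm_of_nonneg (Real.log_nonneg hn1'), Real.norm_of_nonneg (by positivity)] at hn
    calc 2 * κ * Real.log n ≤ 2 * κ * (1 / (2 * κ) * (n : ℝ) ^ (1 - δ / 2)) := by gcongr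
      _ = _ := by field_simp
  obtain ⟨n₀, hn₀⟩ := eventually_atTop.1 ((tlog.eventually_ge_atTop (max 1 (2 / κ))).and
    (((tpow (1 - δ / 2) (by linarith)).eventually_ge_atTop (max 2 (Y₀ : ℝ))).and
    (((tpow (δ / 2) (by linarith)).eventually_ge_atTop 2).and (ho.and (eventually_ge_atTop (2 * X₀))))))
  refine ⟨n₀, fun n hn Y hY1 hY2 => ?_⟩
  obtain ⟨a1, a2, a3, a4, a5⟩ := hn₀ n hn
  obtain ⟨L, hL⟩ : ∃ L, L = Real.log (n : ℝ) := ⟨_, rfl⟩
  rw [← hL] at a1 a4
  have hL1 : 1 ≤ L := (le_max_left _ _).trans a1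
  have hLκ : 2 / κ ≤ L := (le_max_right _ _).trans a1
  have hκL : 2 ≤ κ * L := by
    rw [div_le_iff₀ hκ] at hLκ
    linarith
  have hYY0 : Y₀ ≤ Y := by
    have : (Y₀ : ℝ) ≤ Y := ((le_max_right _ _).trans a2).trans hY1
    exact_mod_cast this
  have hY2' : (2 : ℝ) ≤ Y := ((le_max_left _ _).trans a2).trans hY1
  have hn0 : (0 : ℝ) < n := by
    have : (4 * Y : ℝ) ≤ n := by exact_mod_cast hY2
    linarith
  obtain ⟨H, hH⟩ : ∃ H : ℕ, H = ⌊κ * L⌋₊ := ⟨_, rfl⟩
  have hH1 : (H : ℝ) ≤ κ * L := by rw [hH]; exact Nat.floor_le (by positivity)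
  have hH2 : κ / 2 * L ≤ H := by
    have := Nat.lt_floor_add_one (κ * L)
    rw [← hH] at this
    linarith
  have hHY : 2 * (H : ℝ) ≤ Y := by linarith
  have hHY' : 2 * H ≤ Y := by exact_mod_cast hHY
  obtain ⟨X, hX⟩ : ∃ X : ℕ, X = n - 2 * Y := ⟨_, rfl⟩
  obtain ⟨S, hS⟩ : ∃ S : Finset ℕ, S = (Ioc X (X + (Y - H))).filter Nat.Prime := ⟨_, rfl⟩
  have hXn : (X : ℝ) ≤ n := by exact_mod_cast (by omega : X ≤ n)
  have hX1 : 1 ≤ X := by omega
  have hXpos : (0 : ℝ) < X := by exact_mod_cast hX1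
  have hYH : (Y : ℝ) / 2 ≤ ((Y - H : ℕ) : ℝ) := by
    rw [Nat.cast_sub (by omega)]
    linarith
  have hhoX := hho X (Y - H) (by omega) (by
    have e1 : (X : ℝ) ^ (1 - δ) ≤ (n : ℝ) ^ (1 - δ) := Real.rpow_le_rpow hXpos.le hXn (by linarith)
    have e2 : (n : ℝ) ^ (1 - δ / 2) = (n : ℝ) ^ (1 - δ) * (n : ℝ) ^ (δ / 2) := by
      rw [← Real.rpow_add hn0]; congr 1; ring
    have e3 : (0 : ℝ) < (n : ℝ) ^ (1 - δ) := Real.rpow_pos_of_pos hn0 _
    have e4 : 2 * (n : ℝ) ^ (1 - δ) ≤ (n : ℝ) ^ (1 - δ / 2) := by rw [e2]; nlinarith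
    linarith) (by omega)
  rw [← hS] at hhoX
  have hSp : ∀ q ∈ S, q.Prime := by
    intro q hq
    rw [hS, mem_filter] at hq
    exact hq.2
  have hSI : S ⊆ Ioc X (X + Y) := by
    intro q hq
    rw [hS, mem_filter, mem_Ioc] at hq
    rw [mem_Ioc]
    omega
  have hsec := second S n Y H (by omega) (by
    intro q hq
    rw [hS, mem_filter, mem_Ioc] at hq
    omega)
  have hpr := hY₀ Y hYY0 X H S hSI hSp
  obtain ⟨P, hP⟩ : ∃ P : ℝ, P = (((S ×ˢ S).filter (fun v => v.1 < v.2 ∧ v.2 < v.1 + H)).card : ℝ) := ⟨_, rfl⟩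
  rw [← hP] at hpr hsec
  have hP0 : 0 ≤ P := by rw [hP]; exact Nat.cast_nonneg _
  have hYpos : (0 : ℝ) < Y := by linarith
  have hlogY : L / 2 ≤ Real.log Y := by
    have e1 : Real.log ((n : ℝ) ^ (1 - δ / 2)) ≤ Real.log Y := Real.log_le_log (by positivity) hY1
    rw [Real.log_rpow hn0, ← hL] at e1
    nlinarith
  have hP1 : P ≤ 4 * C * κ * Y / L := by
    have hlY : 0 < Real.log Y := by linarith
    refine hpr.trans ?_
    have e1 : (Y : ℝ) / Real.log Y ^ 2 ≤ Y / (L / 2) ^ 2 := by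
      apply div_le_div_of_nonneg_left hYpos.le (by positivity)
      exact pow_le_pow_left₀ (by positivity) hlogY 2
    calc C * H * (Y / Real.log Y ^ 2) ≤ C * (κ * L) * (Y / (L / 2) ^ 2) := by gcongr
      _ = _ := by field_simp; ring
  have hG : ((GT S n Y H).card : ℝ) ≤ (GB κ n Y).card := by
    have : GT S n Y H ⊆ GB κ n Y := by
      intro t ht
      unfold GT at ht
      unfold GB
      rw [mem_filter] at ht ⊢
      obtain ⟨h1, q, hq, h2, h3⟩ := ht
      refine ⟨h1, q, hSp q hq, h2, ?_⟩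
      have h4 : (n : ℝ) < q + t + H := by exact_mod_cast h3
      rw [← hL]
      linarith
    exact_mod_cast card_le_card this
  refine le_trans ?_ hG
  have hslow : η * (Y / 2) / L ≤ (S.card : ℝ) := by
    refine le_trans ?_ hhoX
    have hlX : 0 < Real.log X := by
      apply Real.log_pos
      exact_mod_cast (by omega : 1 < X)
    have hlXL : Real.log X ≤ L := by rw [hL]; exact Real.log_le_log hXpos hXn
    calc η * (Y / 2) / L ≤ η * (Y / 2) / Real.log X := by
          apply div_le_div_of_nonneg_left (by positivity) hlX hlXL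
      _ ≤ η * ((Y - H : ℕ) : ℝ) / Real.log X := by gcongr
  exact real_aux (by linarith) hYpos hκ hη (by linarith) (Nat.cast_nonneg _) rfl hslow hP0 hP1 hH2 hsec

/-- **simultaneous choice**: a random choice of representatives hits many good sets -/
lemma select {ι : Type} [Fintype ι] [DecidableEq ι] (D : ι → Finset ℕ) (c : ℝ) (hc : 0 < c)
    (𝒩 : Finset ℕ) (G : ℕ → ι → Finset ℕ) (hGD : ∀ n ∈ 𝒩, ∀ i, G n i ⊆ D i)
    (hG : ∀ n ∈ 𝒩, ∀ i, c * (D i).card ≤ (G n i).card) (hD : ∀ i, (D i).Nonempty)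
    (hN : (𝒩.card : ℝ) * Real.exp (-(c / 4 * Fintype.card ι)) < 1) :
    ∃ f ∈ Fintype.piFinset D, ∀ n ∈ 𝒩, c / 4 * Fintype.card ι ≤ ((univ.filter (fun i => f i ∈ G n i)).card : ℝ) := by
  classical
  by_contra hcon
  push Not at hcon
  obtain ⟨m, hm⟩ : ∃ m : ℝ, m = Fintype.card ι := ⟨_, rfl⟩
  rw [← hm] at hN hcon
  have he : Real.exp (-1) ≤ 1 / 2 := by
    rw [Real.exp_neg, one_div]
    apply inv_anti₀ (by norm_num)
    have := Real.add_one_le_exp (1 : ℝ)
    linarith
  obtain ⟨Bad, hBad⟩ : ∃ Bad : ℕ → Finset (ι → ℕ), Bad = fun n => (Fintype.piFinset D).filter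
    (fun f => ((univ.filter (fun i => f i ∈ G n i)).card : ℝ) < c / 4 * m) := ⟨_, rfl⟩
  have hPi : (0 : ℝ) < (Fintype.piFinset D).card := by
    rw [Fintype.card_piFinset]
    push_cast
    exact prod_pos fun i _ => by exact_mod_cast card_pos.2 (hD i)
  have hbad : ∀ n ∈ 𝒩, ((Bad n).card : ℝ) ≤ (Fintype.piFinset D).card * Real.exp (-(c / 4 * m)) := by
    intro n hn
    obtain ⟨w, hw⟩ : ∃ w : ι → ℕ → ℝ, w = fun i t => if t ∈ G n i then Real.exp (-1) else 1 := ⟨_, rfl⟩
    have hwprod : ∀ f : ι → ℕ, ∏ i, w i (f i) = Real.exp (-((univ.filter (fun i => f i ∈ G n i)).card : ℝ)) := by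
      intro f
      rw [hw]
      simp only
      rw [prod_ite, prod_const_one, mul_one, prod_const, ← Real.exp_nat_mul]
      congr 1
      ring
    have hsum : ∑ f ∈ Fintype.piFinset D, ∏ i, w i (f i) ≤ (Fintype.piFinset D).card * Real.exp (-(c / 2 * m)) := by
      rw [← prod_univ_sum]
      have h1 : ∀ i, ∑ t ∈ D i, w i t ≤ (D i).card * Real.exp (-(c / 2)) := by
        intro i
        rw [hw]
        simp only
        rw [sum_ite, sum_const, sum_const, nsmul_eq_mul, nsmul_eq_mul, mul_one]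
        have e1 : (D i).filter (fun t => t ∈ G n i) = G n i := by
          ext t
          rw [mem_filter]
          exact ⟨fun h => h.2, fun h => ⟨hGD n hn i h, h⟩⟩
        have e2 : ((D i).filter (fun t => t ∈ G n i)).card + ((D i).filter (fun t => t ∉ G n i)).card = (D i).card :=
          card_filter_add_card_filter_not (s := D i) (fun t => t ∈ G n i)
        rw [e1] at e2 ⊢
        have e3 : (((D i).filter (fun t => t ∉ G n i)).card : ℝ) = (D i).card - (G n i).card := by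
          rw [← e2]; push_cast; ring
        rw [e3]
        have e4 := hG n hn i
        have e5 : 1 - c / 2 ≤ Real.exp (-(c / 2)) := by
          have := Real.add_one_le_exp (-(c / 2)); linarith
        have e6 : (0 : ℝ) ≤ (D i).card := Nat.cast_nonneg _
        have e7 : (0 : ℝ) ≤ (G n i).card := Nat.cast_nonneg _
        nlinarith
      calc ∏ i, ∑ t ∈ D i, w i t ≤ ∏ i, ((D i).card * Real.exp (-(c / 2)) : ℝ) := by
            apply Finset.prod_le_prod
            · intro i _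
              apply sum_nonneg
              intro t _
              rw [hw]
              simp only
              split_ifs
              · exact (Real.exp_pos _).le
              · norm_num
            · intro i _
              exact h1 i
        _ = _ := by
            rw [prod_mul_distrib, prod_const, card_univ, ← Real.exp_nat_mul, Fintype.card_piFinset]
            push_cast
            rw [hm]
            congr 2
            ring
    have hlow : ((Bad n).card : ℝ) * Real.exp (-(c / 4 * m)) ≤ ∑ f ∈ Fintype.piFinset D, ∏ i, w i (f i) := by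
      calc ((Bad n).card : ℝ) * Real.exp (-(c / 4 * m)) = ∑ f ∈ Bad n, Real.exp (-(c / 4 * m)) := by
            rw [sum_const, nsmul_eq_mul]
        _ ≤ ∑ f ∈ Bad n, ∏ i, w i (f i) := by
            apply sum_le_sum
            intro f hf
            rw [hBad] at hf
            simp only [mem_filter] at hf
            rw [hwprod]
            apply Real.exp_le_exp.2
            linarith [hf.2]
        _ ≤ _ := by
            apply sum_le_sum_of_subset_of_nonneg
            · rw [hBad]; exact filter_subset _ _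
            · intro f _ _
              rw [hwprod]
              exact (Real.exp_pos _).le
    have h2 := hlow.trans hsum
    have h3 : (Fintype.piFinset D).card * Real.exp (-(c / 2 * m)) =
        ((Fintype.piFinset D).card * Real.exp (-(c / 4 * m))) * Real.exp (-(c / 4 * m)) := by
      rw [mul_assoc, ← Real.exp_add]
      congr 2
      ring
    rw [h3] at h2
    exact le_of_mul_le_mul_right h2 (Real.exp_pos _)
  have hcov : Fintype.piFinset D ⊆ 𝒩.biUnion Bad := by
    intro f hf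
    obtain ⟨n, hn, h⟩ := hcon f hf
    rw [mem_biUnion]
    refine ⟨n, hn, ?_⟩
    rw [hBad]
    simp only [mem_filter]
    exact ⟨hf, h⟩
  have h1 : ((Fintype.piFinset D).card : ℝ) ≤ ∑ n ∈ 𝒩, ((Bad n).card : ℝ) := by
    exact_mod_cast (card_le_card hcov).trans card_biUnion_le
  have h2 : ∑ n ∈ 𝒩, ((Bad n).card : ℝ) ≤ 𝒩.card * ((Fintype.piFinset D).card * Real.exp (-(c / 4 * m))) := by
    rw [← nsmul_eq_mul]
    exact sum_le_card_nsmul _ _ _ hbad
  have h3 : (𝒩.card : ℝ) * ((Fintype.piFinset D).card * Real.exp (-(c / 4 * m))) =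
      (𝒩.card * Real.exp (-(c / 4 * m))) * (Fintype.piFinset D).card := by ring
  rw [h3] at h2
  have h4 : (𝒩.card * Real.exp (-(c / 4 * m))) * (Fintype.piFinset D).card < 1 * (Fintype.piFinset D).card :=
    mul_lt_mul_of_pos_right hN hPi
  linarith

end Pool.Agent.X10.ST
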