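import Pool.Agent.X10.ST.Block2

set_option autoImplicit false

/-! A set `T` with `T(x) = O(log x)` such that all gaps of `P + T` are at most `κ log x` (helper10). -/

namespace Pool.Agent.X10.ST

open Finset Filter

/-- the boundaries of the super-blocks -/
def av (A q : ℕ) : ℕ → ℕ
  | 0 => A
  | m + 1 => av A q m + av A q m / q

section
variable {A q : ℕ} (hq : 1 ≤ q) (hA : q ≤ A)
include hq hA

lemma av_ge (m : ℕ) : A + m ≤ av A q m := by
  induction m with
  | zero => exact le_rfl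
  | succ m ih =>
    have h1 : 1 ≤ av A q m / q := (Nat.one_le_div_iff (by omega)).2 (by omega)
    show A + (m + 1) ≤ av A q m + av A q m / q
    omega

lemma av_lt (m : ℕ) : av A q m < av A q (m + 1) := by
  have h0 := av_ge hq hA m
  have h1 : 1 ≤ av A q m / q := (Nat.one_le_div_iff (by omega)).2 (by omega)
  show av A q m < av A q m + av A q m / q
  omega

lemma av_mono : StrictMono (av A q) := strictMono_nat_of_lt_succ (av_lt hq hA)

lemma av_step_lower (m : ℕ) : (av A q m : ℝ) / (2 * q) ≤ ((av A q (m + 1) - av A q m : ℕ) : ℝ) := by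
  have h0 := av_ge hq hA m
  have h1 : 1 ≤ av A q m / q := (Nat.one_le_div_iff (by omega)).2 (by omega)
  have e : av A q (m + 1) - av A q m = av A q m / q := by
    show av A q m + av A q m / q - av A q m = _
    omega
  rw [e]
  have hq0 : (0 : ℝ) < q := by exact_mod_cast hq
  have h2 : av A q m < q * (av A q m / q + 1) := Nat.lt_mul_div_succ _ (by omega)
  have h3 : (av A q m : ℝ) < q * ((av A q m / q : ℕ) + 1) := by exact_mod_cast h2
  have h4 : (1 : ℝ) ≤ ((av A q m / q : ℕ) : ℝ) := by exact_mod_cast h1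
  rw [div_le_iff₀ (by positivity)]
  nlinarith

lemma av_step_upper (m : ℕ) : (av A q (m + 1) : ℝ) ≤ av A q m * (1 + 1 / q) := by
  have e : av A q (m + 1) = av A q m + av A q m / q := rfl
  rw [e]
  have hq0 : (0 : ℝ) < q := by exact_mod_cast hq
  have h1 : ((av A q m / q : ℕ) : ℝ) ≤ av A q m / q := Nat.cast_div_le
  push_cast
  calc (av A q m : ℝ) + ((av A q m / q : ℕ) : ℝ) ≤ av A q m + av A q m / q := by linarith
    _ = _ := by ring

lemma av_two (m : ℕ) : (av A q (m + 2) : ℝ) + 2 ≤ av A q m * (1 + 5 / q) := by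
  have hq0 : (1 : ℝ) ≤ q := by exact_mod_cast hq
  have h1 := av_step_upper hq hA m
  have h2 := av_step_upper hq hA (m + 1)
  have h0 : (q : ℝ) ≤ av A q m := by exact_mod_cast (hA.trans (by have := av_ge hq hA m; omega))
  have h3 : (0 : ℝ) ≤ 1 / q := by positivity
  have h4 : (1 : ℝ) / q ≤ 1 := by rw [div_le_one (by linarith)]; exact hq0
  have h5 : (2 : ℝ) ≤ av A q m * (2 / q) := by
    rw [mul_div_assoc', le_div_iff₀ (by linarith)]
    nlinarith
  obtain ⟨u, hu⟩ : ∃ u : ℝ, u = 1 / q := ⟨_, rfl⟩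
  have e2 : (2 : ℝ) / q = 2 * u := by rw [hu]; ring
  have e5 : (5 : ℝ) / q = 5 * u := by rw [hu]; ring
  rw [← hu] at h1 h2 h3 h4
  rw [e2] at h5
  rw [e5]
  have ha : (0 : ℝ) ≤ av A q m := Nat.cast_nonneg _
  have h6 : (av A q (m + 2) : ℝ) ≤ av A q m * (1 + u) * (1 + u) :=
    h2.trans (mul_le_mul_of_nonneg_right h1 (by linarith))
  have h7 : u ^ 2 ≤ u := by nlinarith
  nlinarith [mul_le_mul_of_nonneg_left h7 ha]

end

/-- the `n` served by the super-block `m` -/
def srv (A q m : ℕ) : Finset ℕ := Ico (2 ^ (av A q (m + 1) + 2)) (2 ^ (av A q (m + 2) + 2))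

/-- one super-block -/
lemma superblock (κ : ℝ) (hκ : 0 < κ) : ∃ (q A R : ℕ) (c : ℝ), 1 ≤ q ∧ q ≤ A ∧ 1 ≤ R ∧ 0 < c ∧ ∀ m : ℕ,
    ∃ f : ℕ → Fin R → ℕ, (∀ j ∈ Ico (av A q m) (av A q (m + 1)), ∀ i, f j i ∈ Ioc (2 ^ j) (2 * 2 ^ j)) ∧
      ∀ n ∈ srv A q m, c * Real.log n ≤
        (((Ico (av A q m) (av A q (m + 1))).filter (fun j => ∃ i, f j i ∈ GB κ n (2 ^ j))).card : ℝ) := by
  classical
  obtain ⟨θ, c, hθ, hθ1, hc, n₀, hgood⟩ := good_block κ hκ
  obtain ⟨q, hq⟩ : ∃ q : ℕ, q = ⌈10 / (1 - θ)⌉₊ := ⟨_, rfl⟩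
  have h1θ : 0 < 1 - θ := by linarith
  have hqθ : 10 / (1 - θ) ≤ q := by rw [hq]; exact Nat.le_ceil _
  have hq10 : (10 : ℝ) ≤ q := by
    refine le_trans ?_ hqθ
    rw [le_div_iff₀ h1θ]
    nlinarith
  have hq1 : 1 ≤ q := by
    have : (1 : ℝ) ≤ q := by linarith
    exact_mod_cast this
  have hq0 : (0 : ℝ) < q := by linarith
  have hu : 10 / (q : ℝ) ≤ 1 - θ := by
    rw [div_le_iff₀ h1θ] at hqθ
    rw [div_le_iff₀ hq0]
    linarith
  obtain ⟨A, hA⟩ : ∃ A : ℕ, A = q + n₀ := ⟨_, rfl⟩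
  have hqA : q ≤ A := by omega
  obtain ⟨R, hR⟩ : ∃ R : ℕ, R = ⌈56 * q / c⌉₊ + 1 := ⟨_, rfl⟩
  have hRc : 56 * q ≤ R * c := by
    have h1 : 56 * q / c ≤ (R : ℝ) := by
      rw [hR]; push_cast
      have := Nat.le_ceil (56 * q / c)
      linarith
    rwa [div_le_iff₀ hc] at h1
  refine ⟨q, A, R, c / (48 * q), hq1, hqA, by omega, by positivity, fun m => ?_⟩
  obtain ⟨a, ha⟩ : ∃ a : ℕ, a = av A q m := ⟨_, rfl⟩
  obtain ⟨b, hb⟩ : ∃ b : ℕ, b = av A q (m + 1) := ⟨_, rfl⟩
  obtain ⟨d, hd⟩ : ∃ d : ℕ, d = av A q (m + 2) := ⟨_, rfl⟩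
  have hab := av_lt hq1 hqA m
  have hbd := av_lt hq1 hqA (m + 1)
  have h2 := av_two hq1 hqA m
  have h3 := av_step_lower hq1 hqA m
  have hAa := av_ge hq1 hqA m
  unfold srv
  rw [← ha] at hab h2 h3 hAa ⊢
  rw [← hb] at hab h3 ⊢
  rw [show av A q (m + 1 + 1) = d from hd.symm, ← hb] at hbd
  rw [← hd] at h2 ⊢
  have ha1 : (1 : ℝ) ≤ a := by exact_mod_cast (by omega : 1 ≤ a)
  have ha0 : (0 : ℝ) < a := by linarith
  have hd6 : (d : ℝ) + 2 ≤ 6 * a := by
    refine h2.trans ?_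
    have : 5 / (q : ℝ) ≤ 5 := by
      rw [div_le_iff₀ hq0]; linarith
    nlinarith
  have hθd : θ * ((d : ℝ) + 2) ≤ a := by
    have h4 : (d : ℝ) + 2 ≤ a * (1 + (1 - θ) / 2) := by
      refine h2.trans ?_
      apply mul_le_mul_of_nonneg_left _ ha0.le
      have : 5 / (q : ℝ) = (10 / q) / 2 := by ring
      rw [this]
      linarith
    nlinarith [mul_le_mul_of_nonneg_left h4 hθ.le, sq_nonneg (1 - θ), mul_pos ha0 hθ]
  -- the index set
  obtain ⟨f, hf, hf2⟩ := select (ι := ↥(Finset.Ico a b) × Fin R)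
    (fun i => Ioc (2 ^ (i.1 : ℕ)) (2 * 2 ^ (i.1 : ℕ))) c hc (Ico (2 ^ (b + 2)) (2 ^ (d + 2)))
    (fun n i => GB κ n (2 ^ (i.1 : ℕ))) (by
      intro n _ i
      unfold GB
      exact filter_subset _ _) (by
      intro n hn i
      rw [mem_Ico] at hn
      have hj := mem_Ico.1 i.1.2
      have hdc : (Ioc (2 ^ (i.1 : ℕ)) (2 * 2 ^ (i.1 : ℕ))).card = 2 ^ (i.1 : ℕ) := by
        rw [Nat.card_Ioc]; omega
      rw [hdc]
      apply hgood n
      · calc n₀ ≤ b + 2 := by omega
          _ ≤ 2 ^ (b + 2) := Nat.lt_two_pow_self.le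
          _ ≤ n := hn.1
      · have hn0 : (0 : ℝ) ≤ n := Nat.cast_nonneg _
        have hn2 : (n : ℝ) ≤ (2 : ℝ) ^ ((d : ℝ) + 2) := by
          have : (n : ℝ) ≤ ((2 ^ (d + 2) : ℕ) : ℝ) := by exact_mod_cast hn.2.le
          refine this.trans (le_of_eq ?_)
          push_cast
          rw [← Real.rpow_natCast]
          push_cast
          rfl
        calc (n : ℝ) ^ θ ≤ ((2 : ℝ) ^ ((d : ℝ) + 2)) ^ θ := Real.rpow_le_rpow hn0 hn2 hθ.le
          _ = (2 : ℝ) ^ (((d : ℝ) + 2) * θ) := by rw [← Real.rpow_mul (by norm_num)]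
          _ ≤ (2 : ℝ) ^ (((i.1 : ℕ) : ℝ)) := by
              apply Real.rpow_le_rpow_of_exponent_le (by norm_num)
              have : (a : ℝ) ≤ ((i.1 : ℕ) : ℝ) := by exact_mod_cast hj.1
              linarith
          _ = ((2 ^ (i.1 : ℕ) : ℕ) : ℝ) := by rw [Real.rpow_natCast]; push_cast; rfl
      · calc 4 * 2 ^ (i.1 : ℕ) = 2 ^ ((i.1 : ℕ) + 2) := by ring
          _ ≤ 2 ^ (b + 2) := Nat.pow_le_pow_right (by norm_num) (by omega)
          _ ≤ n := hn.1) (by
      intro i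
      rw [nonempty_Ioc]
      have : 0 < 2 ^ (i.1 : ℕ) := by positivity
      omega) (by
      have hcard : (Fintype.card (↥(Finset.Ico a b) × Fin R) : ℝ) = ((b - a : ℕ) : ℝ) * R := by
        rw [Fintype.card_prod, Fintype.card_coe, Nat.card_Ico, Fintype.card_fin]
        push_cast
        ring
      rw [hcard]
      have h4 : ((Ico (2 ^ (b + 2)) (2 ^ (d + 2))).card : ℝ) ≤ Real.exp (6 * a) := by
        rw [Nat.card_Ico]
        calc ((2 ^ (d + 2) - 2 ^ (b + 2) : ℕ) : ℝ) ≤ ((2 ^ (d + 2) : ℕ) : ℝ) := by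
              exact_mod_cast Nat.sub_le _ _
          _ = (2 : ℝ) ^ (d + 2) := by push_cast; rfl
          _ ≤ Real.exp 1 ^ (d + 2) := by
              apply pow_le_pow_left₀ (by norm_num)
              have := Real.add_one_le_exp (1 : ℝ)
              linarith
          _ = Real.exp ((d : ℝ) + 2) := by rw [← Real.exp_nat_mul]; push_cast; ring_nf
          _ ≤ _ := Real.exp_le_exp.2 hd6
      have h5 : 7 * (a : ℝ) ≤ c / 4 * (((b - a : ℕ) : ℝ) * R) := by
        calc 7 * (a : ℝ) = (56 * q) * (a / (2 * q)) / 4 := by field_simp; ring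
          _ ≤ (R * c) * (((b - a : ℕ) : ℝ)) / 4 := by
              have h6 : 0 ≤ (a : ℝ) / (2 * q) := by positivity
              have h7 : (0 : ℝ) ≤ 56 * q := by positivity
              have := mul_le_mul hRc h3 h6 (h7.trans hRc)
              linarith
          _ = _ := by ring
      calc _ ≤ Real.exp (6 * a) * Real.exp (-(7 * a)) := by
            apply mul_le_mul h4 _ (Real.exp_pos _).le (Real.exp_pos _).le
            apply Real.exp_le_exp.2
            linarith
        _ = Real.exp (-a) := by rw [← Real.exp_add]; congr 1; ring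
        _ < 1 := by rw [Real.exp_lt_one_iff]; linarith)
  refine ⟨fun j i => if h : j ∈ Finset.Ico a b then f (⟨j, h⟩, i) else 0, ?_, ?_⟩
  · intro j hj i
    beta_reduce
    rw [dif_pos hj]
    exact Fintype.mem_piFinset.1 hf (⟨j, hj⟩, i)
  · intro n hn
    beta_reduce
    have h4 := hf2 n hn
    have hcard : (Fintype.card (↥(Finset.Ico a b) × Fin R) : ℝ) = ((b - a : ℕ) : ℝ) * R := by
      rw [Fintype.card_prod, Fintype.card_coe, Nat.card_Ico, Fintype.card_fin]
      push_cast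
      ring
    rw [hcard] at h4
    obtain ⟨J, hJ⟩ : ∃ J : Finset ℕ, J = (Finset.Ico a b).filter (fun j => ∃ i : Fin R,
      (if h : j ∈ Finset.Ico a b then f (⟨j, h⟩, i) else 0) ∈ GB κ n (2 ^ j)) := ⟨_, rfl⟩
    have h5 : (univ.filter (fun i : ↥(Finset.Ico a b) × Fin R => f i ∈ GB κ n (2 ^ (i.1 : ℕ)))).card ≤ J.card * R := by
      have h6 : (univ.filter (fun i : ↥(Finset.Ico a b) × Fin R => f i ∈ GB κ n (2 ^ (i.1 : ℕ)))).card ≤
          (J ×ˢ (univ : Finset (Fin R))).card := by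
        apply card_le_card_of_injOn (fun i => ((i.1 : ℕ), i.2))
        · intro i hi
          rw [mem_coe, mem_filter] at hi
          rw [mem_coe, mem_product]
          refine ⟨?_, mem_univ _⟩
          rw [hJ, mem_filter]
          refine ⟨i.1.2, i.2, ?_⟩
          rw [dif_pos i.1.2]
          exact hi.2
        · intro i _ i' _ h
          simp only [Prod.mk.injEq] at h
          exact Prod.ext (Subtype.ext h.1) h.2
      rwa [card_product, card_univ, Fintype.card_fin] at h6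
    rw [← hJ]
    have hR0 : (0 : ℝ) < R := by
      have : 1 ≤ R := by omega
      exact_mod_cast this
    have h6 : c / 4 * (((b - a : ℕ) : ℝ) * R) ≤ J.card * R := h4.trans (by exact_mod_cast h5)
    have h7 : c / 4 * ((b - a : ℕ) : ℝ) ≤ J.card := by
      have : c / 4 * ((b - a : ℕ) : ℝ) * R ≤ J.card * R := by linarith
      exact le_of_mul_le_mul_right this hR0
    refine le_trans ?_ h7
    have h8 : Real.log n ≤ 6 * a := by
      rw [mem_Ico] at hn
      have hn0 : (0 : ℝ) < n := by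
        have : 0 < 2 ^ (b + 2) := by positivity
        exact_mod_cast lt_of_lt_of_le this hn.1
      calc Real.log n ≤ Real.log (((2 ^ (d + 2) : ℕ)) : ℝ) := Real.log_le_log hn0 (by exact_mod_cast hn.2.le)
        _ = ((d : ℝ) + 2) * Real.log 2 := by
            push_cast
            rw [Real.log_pow]
            push_cast
            ring
        _ ≤ ((d : ℝ) + 2) * 1 := by
            apply mul_le_mul_of_nonneg_left _ (by positivity)
            have := Real.log_two_lt_d9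
            linarith
        _ ≤ 6 * a := by linarith
    calc c / (48 * q) * Real.log n ≤ c / (48 * q) * (6 * a) := by gcongr
      _ = c / 4 * (a / (2 * q)) := by field_simp; ring
      _ ≤ c / 4 * ((b - a : ℕ) : ℝ) := by gcongr

end Pool.Agent.X10.ST
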