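import Pool.Agent.X10.ST.LogT

set_option autoImplicit false

namespace Pool.Agent.X10.ST

open Finset Filter

/-- the index of the super-block of `j` -/
def mu (A q j : ℕ) : ℕ := Nat.findGreatest (fun m => av A q m ≤ j) j

lemma mu_eq {A q : ℕ} (hq : 1 ≤ q) (hA : q ≤ A) {m j : ℕ} (h1 : av A q m ≤ j) (h2 : j < av A q (m + 1)) :
    mu A q j = m := by
  have h0 := av_ge hq hA m
  unfold mu
  rw [Nat.findGreatest_eq_iff]
  refine ⟨by omega, fun _ => h1, fun k hk _ hk2 => ?_⟩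
  have h3 : av A q (m + 1) ≤ av A q k := (av_mono hq hA).monotone (by omega)
  omega

lemma mu_spec {A q : ℕ} (hq : 1 ≤ q) (hA : q ≤ A) {j : ℕ} (h : A ≤ j) :
    av A q (mu A q j) ≤ j ∧ j < av A q (mu A q j + 1) := by
  have h1 : av A q (mu A q j) ≤ j :=
    Nat.findGreatest_spec (P := fun m => av A q m ≤ j) (Nat.zero_le j) h
  refine ⟨h1, ?_⟩
  by_contra hcon
  push Not at hcon
  have h2 : mu A q j + 1 ≤ j := by
    have := av_ge hq hA (mu A q j + 1)
    omega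
  have h3 := Nat.le_findGreatest (P := fun m => av A q m ≤ j) h2 hcon
  unfold mu at h3
  omega

theorem log_translates (κ : ℝ) (hκ : 0 < κ) : ∃ (C c : ℝ) (T : Set ℕ), 0 < c ∧
    (∀ x : ℕ, 2 ≤ x → ((T ∩ Set.Icc 1 x).ncard : ℝ) ≤ C * Real.log x) ∧
    ∃ n₀ : ℕ, ∀ n : ℕ, n₀ ≤ n → c * Real.log n ≤
      (({t ∈ T | t ≤ n ∧ ∃ p : ℕ, p.Prime ∧ p + t ≤ n ∧ (n : ℝ) < p + t + κ * Real.log n}).ncard : ℝ) := by
  classical
  obtain ⟨q, A, R, c, hq, hA, hR, hc, H⟩ := superblock κ hκ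
  choose f hf hf2 using H
  obtain ⟨F, hF⟩ : ∃ F : ℕ → Fin R → ℕ, F = fun j i => f (mu A q j) j i := ⟨_, rfl⟩
  have hFI : ∀ j, A ≤ j → ∀ i, F j i ∈ Ioc (2 ^ j) (2 * 2 ^ j) := by
    intro j hj i
    obtain ⟨h1, h2⟩ := mu_spec hq hA hj
    rw [hF]
    exact hf _ j (mem_Ico.2 ⟨h1, h2⟩) i
  refine ⟨3 * R, c, {t | ∃ j i, A ≤ j ∧ F j i = t}, hc, ?_, 2 ^ (av A q 1 + 2), ?_⟩
  · intro x hx
    have h1 : ({t | ∃ j i, A ≤ j ∧ F j i = t} ∩ Set.Icc 1 x : Set ℕ) ⊆
        (((range (Nat.log 2 x + 1)) ×ˢ (univ : Finset (Fin R))).image (fun v => F v.1 v.2) : Finset ℕ) := by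
      rintro t ⟨⟨j, i, hj, rfl⟩, ht⟩
      rw [Finset.mem_coe, mem_image]
      refine ⟨(j, i), ?_, rfl⟩
      rw [mem_product, mem_range]
      refine ⟨?_, mem_univ _⟩
      have h2 := mem_Ioc.1 (hFI j hj i)
      have h3 : 2 ^ j ≤ x := h2.1.le.trans ht.2
      have := Nat.le_log_of_pow_le (by norm_num) h3
      show j < Nat.log 2 x + 1
      omega
    have h2 := Set.ncard_le_ncard h1 (Finset.finite_toSet _)
    rw [Set.ncard_coe_finset] at h2
    have h3 : (((range (Nat.log 2 x + 1)) ×ˢ (univ : Finset (Fin R))).image (fun v => F v.1 v.2)).card ≤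
        (Nat.log 2 x + 1) * R := by
      refine card_image_le.trans ?_
      rw [card_product, card_range, card_univ, Fintype.card_fin]
    have h4 : (({t | ∃ j i, A ≤ j ∧ F j i = t} ∩ Set.Icc 1 x : Set ℕ).ncard : ℝ) ≤ ((Nat.log 2 x : ℝ) + 1) * R := by
      exact_mod_cast h2.trans h3
    refine h4.trans ?_
    have hx0 : (2 : ℝ) ≤ x := by exact_mod_cast hx
    have h5 : (Nat.log 2 x : ℝ) * Real.log 2 ≤ Real.log x := by
      rw [← Real.log_pow]
      apply Real.log_le_log (by positivity)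
      exact_mod_cast Nat.pow_log_le_self 2 (by omega)
    have h6 : Real.log 2 ≤ Real.log x := Real.log_le_log (by norm_num) hx0
    have h7 := Real.log_two_gt_d9
    have h8 : (Nat.log 2 x : ℝ) + 1 ≤ 3 * Real.log x := by
      have h9 : (0 : ℝ) ≤ (Nat.log 2 x : ℝ) := Nat.cast_nonneg _
      nlinarith
    calc ((Nat.log 2 x : ℝ) + 1) * R ≤ (3 * Real.log x) * R := mul_le_mul_of_nonneg_right h8 (Nat.cast_nonneg _)
      _ = _ := by ring
  · intro n hn
    have hex : ∃ m, n < 2 ^ (av A q (m + 2) + 2) := by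
      refine ⟨n, ?_⟩
      have h1 := av_ge hq hA (n + 2)
      calc n < 2 ^ n := Nat.lt_two_pow_self
        _ ≤ _ := Nat.pow_le_pow_right (by norm_num) (by omega)
    obtain ⟨m, hm⟩ : ∃ m, m = Nat.find hex := ⟨_, rfl⟩
    have hm1 : n < 2 ^ (av A q (m + 2) + 2) := by rw [hm]; exact Nat.find_spec hex
    have hm2 : 2 ^ (av A q (m + 1) + 2) ≤ n := by
      rcases Nat.eq_zero_or_pos m with h0 | h0
      · rw [h0]; exact hn
      · have h1 : ¬ n < 2 ^ (av A q ((m - 1) + 2) + 2) := Nat.find_min hex (by omega)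
        have h2 : m - 1 + 2 = m + 1 := by omega
        rw [h2] at h1
        omega
    have hsrv : n ∈ srv A q m := by
      unfold srv
      rw [mem_Ico]
      exact ⟨hm2, hm1⟩
    refine (hf2 m n hsrv).trans ?_
    obtain ⟨J, hJ⟩ : ∃ J : Finset ℕ, J = (Ico (av A q m) (av A q (m + 1))).filter
      (fun j => ∃ i, f m j i ∈ GB κ n (2 ^ j)) := ⟨_, rfl⟩
    rw [← hJ]
    have hJs : ∀ j : ℕ, ∃ t : ℕ, j ∈ J → (t ∈ Ioc (2 ^ j) (2 * 2 ^ j) ∧ (∃ i, F j i = t) ∧ t ∈ GB κ n (2 ^ j)) := by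
      intro j
      by_cases hj : j ∈ J
      · have hj' := hj
        rw [hJ, mem_filter] at hj'
        obtain ⟨h1, i, hi⟩ := hj'
        have h1' := mem_Ico.1 h1
        have h3 : F j i = f m j i := by
          rw [hF]
          simp only
          rw [mu_eq hq hA h1'.1 h1'.2]
        refine ⟨f m j i, fun _ => ⟨hf m j h1 i, ⟨i, h3⟩, hi⟩⟩
      · exact ⟨0, fun h => absurd h hj⟩
    choose g hg using hJs
    have hAj : ∀ j ∈ J, A ≤ j := by
      intro j hj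
      rw [hJ, mem_filter, mem_Ico] at hj
      have h1 := av_ge hq hA m
      omega
    have hinj : Set.InjOn g (J : Set ℕ) := by
      intro j hj j' hj' h
      have h1 := mem_Ioc.1 (hg j hj).1
      have h2 := mem_Ioc.1 (hg j' hj').1
      rw [h] at h1
      rcases lt_trichotomy j j' with h3 | h3 | h3
      · exfalso
        have h4 : 2 ^ (j + 1) ≤ 2 ^ j' := Nat.pow_le_pow_right (by norm_num) (by omega)
        have h5 : 2 ^ (j + 1) = 2 * 2 ^ j := by ring
        omega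
      · exact h3
      · exfalso
        have h4 : 2 ^ (j' + 1) ≤ 2 ^ j := Nat.pow_le_pow_right (by norm_num) (by omega)
        have h5 : 2 ^ (j' + 1) = 2 * 2 ^ j' := by ring
        omega
    have hsub : ((J.image g : Finset ℕ) : Set ℕ) ⊆ {t ∈ {t | ∃ j i, A ≤ j ∧ F j i = t} | t ≤ n ∧ ∃ p : ℕ, p.Prime ∧
        p + t ≤ n ∧ (n : ℝ) < p + t + κ * Real.log n} := by
      intro t ht
      rw [mem_coe, mem_image] at ht
      obtain ⟨j, hj, rfl⟩ := ht
      obtain ⟨h1, ⟨i, h2⟩, h3⟩ := hg j hj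
      unfold GB at h3
      rw [mem_filter] at h3
      obtain ⟨_, p, hp, h4, h5⟩ := h3
      exact ⟨⟨j, i, hAj j hj, h2⟩, by omega, p, hp, h4, h5⟩
    have hfin : ({t ∈ {t | ∃ j i, A ≤ j ∧ F j i = t} | t ≤ n ∧ ∃ p : ℕ, p.Prime ∧
        p + t ≤ n ∧ (n : ℝ) < p + t + κ * Real.log n} : Set ℕ).Finite :=
      (Set.finite_Iic n).subset (fun t ht => ht.2.1)
    have h1 := Set.ncard_le_ncard hsub hfin
    rw [Set.ncard_coe_finset, card_image_of_injOn hinj] at h1
    exact_mod_cast h1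

end Pool.Agent.X10.ST
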