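import Pool.Agent.TH646.TT.Grid
import Pool.Agent.TH823.Fam.Fam2

/-! Superpositions of few translates of the primes (helper10): the greedy step and the induction over the number of
translates. The input `cnt_full` is a starting theorem. -/

set_option autoImplicit false

namespace Pool.Agent.X10.ST

open Finset Filter
open Pool.Agent.H373R2.T7
open Pool.Agent.W301.SS

/-- a prime in `(n + t, n + t + y]` -/
def Near (y : ℕ) (n t : ℕ) : Prop := ∃ q : ℕ, q.Prime ∧ n + t < q ∧ q ≤ n + t + y

open Classical in
/-- the `n` in `[1, N]` without a prime in any of the `(n + t i, n + t i + y]` -/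
noncomputable def missed (N y : ℕ) {r : ℕ} (t : Fin r → ℕ) : Finset ℕ :=
  (Icc 1 N).filter (fun n => ∀ i, ¬ Near y n (t i))

lemma near_of_pn {a b y : ℕ} (h : 0 < pn (a + b) y) : Near y a b := by
  unfold pn at h
  obtain ⟨q, hq⟩ := card_pos.1 h
  rw [mem_filter, mem_Ioc] at hq
  exact ⟨q, hq.2, hq.1.1, hq.1.2⟩

open Classical in
lemma missed_cons {N y r : ℕ} (b : ℕ) (t : Fin r → ℕ) :
    missed N y (Fin.cons b t) ⊆ (missed N y t).filter (fun n => ¬ Near y n b) := by
  classical
  intro n hn
  unfold missed at hn ⊢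
  rw [mem_filter] at hn
  rw [mem_filter, mem_filter]
  refine ⟨⟨hn.1, fun i => ?_⟩, ?_⟩
  · have := hn.2 i.succ
    rwa [Fin.cons_succ] at this
  · have := hn.2 0
    rwa [Fin.cons_zero] at this

/-- the thresholds -/
noncomputable def thr (N : ℕ) (q δ : ℝ) (r : ℕ) : ℝ := N * max (q ^ r) δ

lemma thr_step {N : ℕ} {q δ : ℝ} (hq : 0 ≤ q) (hq1 : q ≤ 1) (hδ : 0 ≤ δ) (r : ℕ) :
    q * thr N q δ r ≤ thr N q δ (r + 1) := by
  unfold thr
  have hN : (0 : ℝ) ≤ N := Nat.cast_nonneg _
  have : q * max (q ^ r) δ ≤ max (q ^ (r + 1)) δ := by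
    rcases le_total (q ^ r) δ with h | h
    · rw [max_eq_right h]
      exact (mul_le_of_le_one_left hδ hq1).trans (le_max_right _ _)
    · rw [max_eq_left h]
      calc q * q ^ r = q ^ (r + 1) := by ring
        _ ≤ _ := le_max_left _ _
  calc q * (N * max (q ^ r) δ) = N * (q * max (q ^ r) δ) := by ring
    _ ≤ _ := mul_le_mul_of_nonneg_left this hN

open Classical in
/-- the bad tuples -/
noncomputable def badT (N y x : ℕ) (s : ℕ → ℤ) (q δ : ℝ) (r : ℕ) : Finset (Fin r → ℕ) :=
  (Fintype.piFinset fun _ : Fin r => Icc 1 x).filter (fun v =>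
    (∀ i, 0 < s (v i) ∧ s (v i) ≤ N) ∧ thr N q δ r < ((missed N y (fun i => (s (v i)).toNat)).card : ℝ))

open Classical in
/-- the induction over the number of the translates -/
lemma induct {N y x : ℕ} {s : ℕ → ℤ} {q δ e : ℝ} (hq : 0 ≤ q) (hq1 : q ≤ 1) (hδ : 0 ≤ δ)
    (hstep : ∀ A : Finset ℕ, A ⊆ Icc 1 N → N * δ ≤ A.card → ∀ S : Finset ℕ, S ⊆ Icc 1 x →
      (∀ m ∈ S, 0 < s m ∧ s m ≤ N ∧
        q * A.card < ((A.filter (fun n => ¬ Near y n (s m).toNat)).card : ℝ)) → (S.card : ℝ) ≤ e * x) (he : 0 ≤ e) :
    ∀ r : ℕ, ((badT N y x s q δ r).card : ℝ) ≤ r * e * (x : ℝ) ^ r := by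
  classical
  obtain ⟨E, hEe⟩ : ∃ E : ℝ, E = e * x := ⟨_, rfl⟩
  have hE : 0 ≤ E := by rw [hEe]; positivity
  rw [← hEe] at hstep
  intro r
  induction r with
  | zero =>
    have : badT N y x s q δ 0 = ∅ := by
      unfold badT
      rw [filter_eq_empty_iff]
      intro v _ hv
      have h1 := hv.2
      unfold thr at h1
      have h2 : ((missed N y (fun i => (s (v i)).toNat)).card : ℝ) ≤ N := by
        have : (missed N y (fun i => (s (v i)).toNat)).card ≤ (Icc 1 N).card := card_le_card (filter_subset _ _)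
        rw [Nat.card_Icc] at this
        exact_mod_cast (by omega : (missed N y (fun i => (s (v i)).toNat)).card ≤ N)
      have h3 : (N : ℝ) * 1 ≤ N * max (q ^ 0) δ :=
        mul_le_mul_of_nonneg_left (by rw [pow_zero]; exact le_max_left _ _) (Nat.cast_nonneg _)
      linarith
    rw [this]
    simp
  | succ r ih =>
    obtain ⟨P, hP⟩ : ∃ P : Finset (Fin r → ℕ), P = Fintype.piFinset fun _ : Fin r => Icc 1 x := ⟨_, rfl⟩
    have hPc : (P.card : ℝ) = (x : ℝ) ^ r := by
      rw [hP, Fintype.card_piFinset]
      simp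
    have hmaps : ∀ v ∈ badT N y x s q δ (r + 1), (Fin.tail v : Fin r → ℕ) ∈ P := by
      intro v hv
      unfold badT at hv
      rw [mem_filter, Fintype.mem_piFinset] at hv
      rw [hP, Fintype.mem_piFinset]
      intro i
      exact hv.1 i.succ
    have hfib := card_eq_sum_card_fiberwise hmaps
    -- fibres
    have hF : ∀ w ∈ P, (((badT N y x s q δ (r + 1)).filter (fun v => (Fin.tail v : Fin r → ℕ) = w)).card : ℝ) ≤
        (if w ∈ badT N y x s q δ r then (x : ℝ) else 0) + E := by
      intro w hw
      obtain ⟨S, hS⟩ : ∃ S : Finset ℕ, S = ((badT N y x s q δ (r + 1)).filter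
        (fun v => (Fin.tail v : Fin r → ℕ) = w)).image (fun v => v 0) := ⟨_, rfl⟩
      have hSc : S.card = ((badT N y x s q δ (r + 1)).filter (fun v => (Fin.tail v : Fin r → ℕ) = w)).card := by
        rw [hS]
        apply card_image_of_injOn
        intro v hv v' hv' h
        rw [mem_coe, mem_filter] at hv hv'
        have e1 : Fin.cons (v 0) (Fin.tail v) = v := Fin.cons_self_tail v
        have e2 : Fin.cons (v' 0) (Fin.tail v') = v' := Fin.cons_self_tail v'
        simp only at h
        rw [← e1, ← e2, hv.2, hv'.2, h]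
      rw [← hSc]
      have hSx : S ⊆ Icc 1 x := by
        intro m hm
        rw [hS, mem_image] at hm
        obtain ⟨v, hv, rfl⟩ := hm
        rw [mem_filter] at hv
        unfold badT at hv
        rw [mem_filter, Fintype.mem_piFinset] at hv
        exact hv.1.1 0
      by_cases hb : w ∈ badT N y x s q δ r
      · rw [if_pos hb]
        have h1 := card_le_card hSx
        rw [Nat.card_Icc] at h1
        have h2 : (S.card : ℝ) ≤ x := by exact_mod_cast (by omega : S.card ≤ x)
        linarith
      · rw [if_neg hb, zero_add]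
        rcases S.eq_empty_or_nonempty with hSe | ⟨m₀, hm₀⟩
        · rw [hSe, card_empty, Nat.cast_zero]; exact hE
        -- the data of an element of `S`
        have hdat : ∀ m ∈ S, (0 < s m ∧ s m ≤ N) ∧ (∀ i, 0 < s (w i) ∧ s (w i) ≤ N) ∧
            thr N q δ (r + 1) < (((missed N y (fun i => (s (w i)).toNat)).filter
              (fun n => ¬ Near y n (s m).toNat)).card : ℝ) := by
          intro m hm
          rw [hS, mem_image] at hm
          obtain ⟨v, hv, rfl⟩ := hm
          rw [mem_filter] at hv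
          obtain ⟨hv1, hv2⟩ := hv
          unfold badT at hv1
          rw [mem_filter] at hv1
          obtain ⟨_, hv3, hv4⟩ := hv1
          refine ⟨hv3 0, fun i => ?_, ?_⟩
          · rw [← hv2]; exact hv3 i.succ
          · refine hv4.trans_le ?_
            have e : (fun i => (s (v i)).toNat) =
                Fin.cons (s (v 0)).toNat (fun i : Fin r => (s (w i)).toNat) := by
              funext i
              refine Fin.cases ?_ (fun j => ?_) i
              · rw [Fin.cons_zero]
              · rw [Fin.cons_succ, ← hv2]; rfl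
            rw [e]
            exact_mod_cast card_le_card (missed_cons _ _)
        obtain ⟨A, hA⟩ : ∃ A : Finset ℕ, A = missed N y (fun i => (s (w i)).toNat) := ⟨_, rfl⟩
        rw [← hA] at hdat
        have hA1 : A ⊆ Icc 1 N := by rw [hA]; exact filter_subset _ _
        have hA2 : (A.card : ℝ) ≤ thr N q δ r := by
          by_contra hcon
          push Not at hcon
          apply hb
          unfold badT
          rw [mem_filter]
          refine ⟨by rw [← hP]; exact hw, (hdat m₀ hm₀).2.1, ?_⟩
          rw [← hA]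
          exact hcon
        refine hstep A hA1 ?_ S hSx ?_
        · have h1 := (hdat m₀ hm₀).2.2
          have h2 : ((A.filter (fun n => ¬ Near y n (s m₀).toNat)).card : ℝ) ≤ A.card := by
            exact_mod_cast card_le_card (filter_subset _ _)
          have h3 : (N : ℝ) * δ ≤ thr N q δ (r + 1) :=
            mul_le_mul_of_nonneg_left (le_max_right _ _) (Nat.cast_nonneg _)
          linarith
        · intro m hm
          obtain ⟨h1, _, h3⟩ := hdat m hm
          refine ⟨h1.1, h1.2, lt_of_le_of_lt ?_ h3⟩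
          refine le_trans ?_ (thr_step hq hq1 hδ r)
          exact mul_le_mul_of_nonneg_left hA2 hq
    have h1 : ((badT N y x s q δ (r + 1)).card : ℝ) ≤ ∑ w ∈ P, ((if w ∈ badT N y x s q δ r then (x : ℝ) else 0) + E) := by
      rw [hfib]
      push_cast
      exact sum_le_sum hF
    have h2 : ∑ w ∈ P, ((if w ∈ badT N y x s q δ r then (x : ℝ) else 0) + E) =
        (badT N y x s q δ r).card * x + (x : ℝ) ^ r * E := by
      rw [sum_add_distrib, sum_const, nsmul_eq_mul, hPc, ← sum_filter, sum_const, nsmul_eq_mul]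
      congr 4
      rw [hP]
      ext w
      rw [mem_filter]
      refine ⟨fun h => h.2, fun h => ⟨?_, h⟩⟩
      unfold badT at h
      exact (mem_filter.1 h).1
    rw [h2] at h1
    have hx : (0 : ℝ) ≤ x := Nat.cast_nonneg _
    calc ((badT N y x s q δ (r + 1)).card : ℝ) ≤
        (badT N y x s q δ r).card * x + (x : ℝ) ^ r * E := h1
      _ ≤ (r * e * (x : ℝ) ^ r) * x + (x : ℝ) ^ r * E := by gcongr
      _ = ((r + 1 : ℕ) : ℝ) * e * (x : ℝ) ^ (r + 1) := by rw [hEe]; push_cast; ring

end Pool.Agent.X10.ST
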