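import Pool.Agent.X10.ST.Thin

set_option autoImplicit false

namespace Pool.Agent.X10.ST

open Finset Filter
open Pool.Agent.H373R2.T7
open Pool.Agent.W301.SS

/-- few translates by the members of a thin family -/
theorem thin_general (p B C U : ℕ) (ε : ℝ) (hε : 0 < ε) (hε1 : ε ≤ 1 / 4) : ∃ K N₀ : ℕ, ∀ N : ℕ, N₀ ≤ N →
    ∀ (x : ℕ) (s : ℕ → ℤ), (∀ m ∈ Icc 1 x, |s m| ≤ B * N) →
    (energy p x s : ℝ) * N ≤ Real.log N ^ C * (x : ℝ) ^ (2 * p) → ∀ r : ℕ,
    ((badT N ⌈Real.log N ^ K⌉₊ x s (3 / 4 + ε) (1 / Real.log N ^ U) r).card : ℝ) ≤ r * (x : ℝ) ^ r / Real.log N ^ U := by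
  classical
  obtain ⟨K, hK⟩ := Pool.Agent.TH646.TT.cnt_full p B (max C U) U ε hε hε1
  have hpow : ∀ᶠ N : ℕ in atTop, Real.log N ^ K + 1 ≤ (N : ℝ) := by
    have h1 : (fun x : ℝ => Real.log x ^ K) =o[atTop] (fun x : ℝ => x ^ (1 : ℝ)) := by
      have := isLittleO_log_rpow_rpow_atTop (K : ℝ) (show (0 : ℝ) < 1 by norm_num)
      simpa [Real.rpow_natCast] using this
    have h2 := h1.bound (show (0 : ℝ) < 1 / 2 by norm_num)
    filter_upwards [tendsto_natCast_atTop_atTop.eventually h2, eventually_ge_atTop 2] with n hn hn2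
    have hn2' : (2 : ℝ) ≤ n := by exact_mod_cast hn2
    have hl : 0 ≤ Real.log n := Real.log_nonneg (by linarith)
    rw [Real.norm_of_nonneg (by positivity), Real.norm_of_nonneg (by positivity), Real.rpow_one] at hn
    linarith
  obtain ⟨N₀, h0⟩ := eventually_atTop.1 (hK.and ((ev_L 1).and hpow))
  refine ⟨K, N₀, fun N hN x s hs hE r => ?_⟩
  obtain ⟨h1, h2, h3⟩ := h0 N hN
  obtain ⟨L, hL⟩ : ∃ L, L = Real.log (N : ℝ) := ⟨_, rfl⟩
  rw [← hL] at h1 h2 h3 hE ⊢
  have hL0 : 0 < L := by linarith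
  obtain ⟨y, hy⟩ : ∃ y, y = ⌈L ^ K⌉₊ := ⟨_, rfl⟩
  rw [← hy]
  have hy1 : L ^ K ≤ y := by rw [hy]; exact Nat.le_ceil _
  have hy2 : y ≤ N := by
    have : (y : ℝ) < L ^ K + 1 := by rw [hy]; exact Nat.ceil_lt_add_one (by positivity)
    have h4 : (y : ℝ) ≤ N := by linarith
    exact_mod_cast h4
  have hy0 : (0 : ℝ) < y := lt_of_lt_of_le (by positivity) hy1
  have hLU : 0 < L ^ U := by positivity
  have key := induct (N := N) (y := y) (x := x) (s := s) (q := 3 / 4 + ε) (δ := 1 / L ^ U) (e := 1 / L ^ U)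
    (by linarith) (by linarith) (by positivity) ?_ (by positivity) r
  · refine key.trans (le_of_eq ?_)
    ring
  · intro A hA hAN S hSx hS
    have hE' : (energy p x s : ℝ) * N ≤ L ^ (max C U) * (x : ℝ) ^ (2 * p) := by
      refine hE.trans ?_
      gcongr
      exact le_max_left _ _
    have hAN' : (N : ℝ) ≤ A.card * L ^ (max C U) := by
      rw [mul_one_div, div_le_iff₀ hLU] at hAN
      refine hAN.trans ?_
      gcongr
      exact le_max_right _ _
    refine (h1 x s hs hE' A hA hAN' S hSx ?_).trans (le_of_eq (by ring))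
    intro m hm
    obtain ⟨g1, g2, g3⟩ := hS m hm
    refine ⟨g1, g2, fun hall => ?_⟩
    obtain ⟨_, g4⟩ := hall y hy1 hy2
    obtain ⟨G, hG⟩ : ∃ G, G = GG A N (s m).toNat y ε := ⟨_, rfl⟩
    rw [← hG] at g4
    have g5 : G.card + (A.filter (fun n => ¬ Near y n (s m).toNat)).card ≤ A.card := by
      rw [← card_union_of_disjoint]
      · apply card_le_card
        apply union_subset
        · rw [hG]; exact filter_subset _ _
        · exact filter_subset _ _
      · rw [disjoint_left]
        intro n hn hn2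
        rw [mem_filter] at hn2
        apply hn2.2
        apply near_of_pn
        rw [hG] at hn
        unfold GG at hn
        rw [mem_filter] at hn
        have h5 : 0 < ε * y := by positivity
        have h6 : (0 : ℝ) < (pn (n + (s m).toNat) y : ℝ) * Real.log N := lt_of_lt_of_le h5 hn.2
        rw [← hL] at h6
        have h7 : (0 : ℝ) < pn (n + (s m).toNat) y := by
          by_contra hcon
          push Not at hcon
          have := mul_nonpos_of_nonpos_of_nonneg hcon hL0.le
          linarith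
        exact_mod_cast h7
    have g6 : (G.card : ℝ) + ((A.filter (fun n => ¬ Near y n (s m).toNat)).card : ℝ) ≤ A.card := by exact_mod_cast g5
    linarith

end Pool.Agent.X10.ST
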